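import Mathlib

/-!
# The embedding dimension of a local ring with enough derivations
-/

set_option autoImplicit false

namespace Pool.Agent.H83.SatDim

theorem spanFinrank_of_derivations {k A : Type} [Field k] [CommRing A] [IsLocalRing A]
    [IsNoetherianRing A] {n : ℕ}
    (ε : A →+* k) (hε : RingHom.ker ε = IsLocalRing.maximalIdeal A)
    (δ : Fin n → A →+ k) (hδ : ∀ j f g, δ j (f * g) = ε f * δ j g + δ j f * ε g)
    (x : Fin n → A) (hx : ∀ i, ε (x i) = 0) (hδx : ∀ i j, δ j (x i) = if i = j then 1 else 0)
    (hspan : IsLocalRing.maximalIdeal A = Ideal.span (Set.range x)) :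
    (IsLocalRing.maximalIdeal A).spanFinrank = n := by
  classical
  refine le_antisymm ?_ ?_
  · have h1 : (Submodule.span A (Set.range x)).spanFinrank ≤ (Set.range x).ncard :=
      Submodule.spanFinrank_span_le_ncard_of_finite (Set.finite_range x)
    have h2 : (Set.range x).ncard ≤ n := by
      have h3 := Set.ncard_image_le (s := (Set.univ : Set (Fin n))) (f := x) Set.finite_univ
      rw [Set.image_univ, Set.ncard_univ, Nat.card_eq_fintype_card, Fintype.card_fin] at h3
      exact h3
    rw [hspan]
    exact h1.trans h2
  · have hfg : (IsLocalRing.maximalIdeal A).FG := IsNoetherian.noetherian _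
    have hfin : (IsLocalRing.maximalIdeal A).generators.Finite :=
      Submodule.FG.finite_generators hfg
    have hcard : (IsLocalRing.maximalIdeal A).generators.ncard =
        (IsLocalRing.maximalIdeal A).spanFinrank := Submodule.FG.generators_ncard hfg
    have hgen : Submodule.span A (IsLocalRing.maximalIdeal A).generators =
        IsLocalRing.maximalIdeal A := Submodule.span_generators _
    set s := (IsLocalRing.maximalIdeal A).generators with hs
    let Φ : A → (Fin n → k) := fun f j => δ j f
    have key : ∀ f ∈ Submodule.span A s, ε f = 0 ∧ Φ f ∈ Submodule.span k (Φ '' s) := by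
      intro f hf
      induction hf using Submodule.span_induction with
      | mem y hy =>
        refine ⟨?_, Submodule.subset_span (Set.mem_image_of_mem _ hy)⟩
        have h1 : y ∈ IsLocalRing.maximalIdeal A := by
          rw [← hgen]
          exact Submodule.subset_span hy
        rw [← hε] at h1
        exact h1
      | zero =>
        refine ⟨map_zero _, ?_⟩
        have h1 : Φ 0 = 0 := by
          funext j
          exact map_zero (δ j)
        rw [h1]
        exact Submodule.zero_mem _
      | add y z _ _ hy hz =>
        refine ⟨by rw [map_add, hy.1, hz.1, add_zero], ?_⟩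
        have h1 : Φ (y + z) = Φ y + Φ z := by
          funext j
          exact map_add (δ j) y z
        rw [h1]
        exact Submodule.add_mem _ hy.2 hz.2
      | smul a y _ hy =>
        refine ⟨by rw [smul_eq_mul, map_mul, hy.1, mul_zero], ?_⟩
        have h1 : Φ (a • y) = ε a • Φ y := by
          funext j
          show δ j (a * y) = ε a * δ j y
          rw [hδ, hy.1, mul_zero, add_zero]
        rw [h1]
        exact Submodule.smul_mem _ _ hy.2
    have htop : Submodule.span k (Φ '' s) = ⊤ := by
      rw [eq_top_iff]
      intro v _
      have h1 : v = ∑ i, v i • Φ (x i) := by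
        funext j
        rw [Finset.sum_apply, Finset.sum_eq_single j]
        · show v j = v j * δ j (x j)
          rw [hδx, if_pos rfl, mul_one]
        · intro i _ hij
          show v i * δ j (x i) = 0
          rw [hδx, if_neg hij, mul_zero]
        · intro h
          exact absurd (Finset.mem_univ _) h
      rw [h1]
      refine Submodule.sum_mem _ fun i _ => Submodule.smul_mem _ _ (key (x i) ?_).2
      rw [hgen, ← hε]
      exact hx i
    have hfin' : (Φ '' s).Finite := hfin.image Φ
    have : Fintype (Φ '' s) := hfin'.fintype
    have h1 := finrank_span_le_card (R := k) (Φ '' s)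
    rw [htop, finrank_top, Module.finrank_fin_fun, ← Set.ncard_eq_toFinset_card'] at h1
    have h2 := Set.ncard_image_le (f := Φ) hfin
    rw [← hcard]
    exact h1.trans h2

end Pool.Agent.H83.SatDim
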